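import Pool.Agent.H45.FM.MEL
import Pool.Agent.H61.FM.Targets

/-!
`MP_52e316_nt`, fourth moment over the class groups: row EZA (the completed Epstein zeta function:
holomorphy, and the series).
-/

set_option autoImplicit false

open MeasureTheory Set Filter
open scoped Real Matrix MatrixGroups Topology

namespace Pool.Agent.H45.FM

open Pool.Agent.H31.CN Pool.Agent.H89.FM Pool.Agent.H61.FM

/-- the Gamma integrand is integrable -/
theorem gint {a : ℂ} (ha : 0 < a.re) : IntegrableOn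
    (fun t : ℝ => (t : ℂ) ^ (a - 1) * Complex.exp (-(((2 * π : ℝ) : ℂ) * t))) (Ioi 0) := by
  have h := integrableOn_rpow_mul_exp_neg_mul_rpow (p := 1) (s := a.re - 1) (b := 2 * π)
    (by linarith) one_pos (by positivity)
  refine Integrable.mono' h ?_ ?_
  · refine ContinuousOn.aestronglyMeasurable ?_ measurableSet_Ioi
    exact (cpow_cont (a - 1)).mul (by fun_prop)
  · refine (ae_restrict_iff' measurableSet_Ioi).2 (ae_of_all _ fun t ht => ?_)
    have h0 : (0 : ℝ) < t := ht
    rw [norm_mul, Complex.norm_cpow_eq_rpow_re_of_pos h0, Complex.norm_exp]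
    have e : (-(((2 * π : ℝ) : ℂ) * t)).re = -(2 * π) * t ^ (1 : ℝ) := by
      rw [Real.rpow_one, ← Complex.ofReal_mul, ← Complex.ofReal_neg, Complex.ofReal_re]
      ring
    rw [e, Complex.sub_re, Complex.one_re]

theorem phc_mul (s : ℂ) {t : ℝ} (ht : 0 < t) : (t : ℂ) ^ (s - 1) * phc (t : ℂ) =
    4 * π ^ 2 * ((t : ℂ) ^ ((s + 2) - 1) * Complex.exp (-(((2 * π : ℝ) : ℂ) * t))) -
      4 * π * ((t : ℂ) ^ ((s + 1) - 1) * Complex.exp (-(((2 * π : ℝ) : ℂ) * t))) := by
  have h0 : (t : ℂ) ≠ 0 := by exact_mod_cast ht.ne'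
  have h1 : (t : ℂ) ^ ((s + 2) - 1) = (t : ℂ) ^ (s - 1) * (t : ℂ) ^ 2 := by
    rw [show (s + 2) - 1 = (s - 1) + ((2 : ℕ) : ℂ) by push_cast; ring, Complex.cpow_add _ _ h0,
      Complex.cpow_natCast]
  have h2 : (t : ℂ) ^ ((s + 1) - 1) = (t : ℂ) ^ (s - 1) * t := by
    rw [show (s + 1) - 1 = (s - 1) + 1 by ring, Complex.cpow_add _ _ h0, Complex.cpow_one]
  have h3 : (-(((2 * π : ℝ) : ℂ) * t)) = -(2 * π * t) := by push_cast; ring
  rw [h1, h2, h3]
  unfold phc
  ring

theorem conv_phc {s : ℂ} (hs : 0 < s.re) :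
    MellinConvergent (fun t : ℝ => phc (t : ℂ)) s := by
  have h1 := (gint (a := s + 2) (by simp; linarith)).const_mul (4 * (π : ℂ) ^ 2)
  have h2 := (gint (a := s + 1) (by simp; linarith)).const_mul (4 * (π : ℂ))
  refine (integrableOn_congr_fun (fun t ht => ?_) measurableSet_Ioi).2 (h1.sub h2)
  have := phc_mul s (t := t) ht
  rw [smul_eq_mul, this]
  rfl

theorem mellin_phc {s : ℂ} (hs : 0 < s.re) :
    mellin (fun t : ℝ => phc (t : ℂ)) s = gG s := by
  have hs0 : s ≠ 0 := by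
    intro h
    rw [h, Complex.zero_re] at hs
    exact lt_irrefl _ hs
  have hs1 : s + 1 ≠ 0 := by
    intro h
    have : (s + 1).re = 0 := by rw [h, Complex.zero_re]
    rw [Complex.add_re, Complex.one_re] at this
    linarith
  have ha1 : 0 < (s + 2).re := by simp; linarith
  have ha2 : 0 < (s + 1).re := by simp; linarith
  have h1 := (gint ha1).const_mul (4 * (π : ℂ) ^ 2)
  have h2 := (gint ha2).const_mul (4 * (π : ℂ))
  have h2π : (0 : ℝ) < 2 * π := by positivity
  unfold mellin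
  have e : ∫ t in Ioi (0 : ℝ), (t : ℂ) ^ (s - 1) • phc (t : ℂ) =
      ∫ t in Ioi (0 : ℝ),
        (4 * (π : ℂ) ^ 2 * ((t : ℂ) ^ ((s + 2) - 1) * Complex.exp (-(((2 * π : ℝ) : ℂ) * t))) -
        4 * (π : ℂ) * ((t : ℂ) ^ ((s + 1) - 1) * Complex.exp (-(((2 * π : ℝ) : ℂ) * t)))) := by
    refine setIntegral_congr_fun measurableSet_Ioi fun t ht => ?_
    rw [smul_eq_mul]
    exact phc_mul s ht
  rw [e, integral_sub h1 h2, integral_const_mul, integral_const_mul,
    Complex.integral_cpow_mul_exp_neg_mul_Ioi ha1 h2π,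
    Complex.integral_cpow_mul_exp_neg_mul_Ioi ha2 h2π]
  have hc : (((2 * π : ℝ) : ℂ)) ≠ 0 := by exact_mod_cast h2π.ne'
  have hc' : (1 / ((2 * π : ℝ) : ℂ)) ≠ 0 := one_div_ne_zero hc
  have e1 : (1 / ((2 * π : ℝ) : ℂ)) ^ (s + 2) =
      (1 / ((2 * π : ℝ) : ℂ)) ^ s * (1 / ((2 * π : ℝ) : ℂ)) ^ 2 := by
    rw [show s + 2 = s + ((2 : ℕ) : ℂ) by push_cast; ring, Complex.cpow_add _ _ hc',
      Complex.cpow_natCast]
  have e2 : (1 / ((2 * π : ℝ) : ℂ)) ^ (s + 1) =
      (1 / ((2 * π : ℝ) : ℂ)) ^ s * (1 / ((2 * π : ℝ) : ℂ)) := by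
    rw [Complex.cpow_add _ _ hc', Complex.cpow_one]
  have e3 : (1 / ((2 * π : ℝ) : ℂ)) ^ s = (2 * (π : ℂ)) ^ (-s) := by
    rw [one_div, Complex.inv_cpow, Complex.cpow_neg]
    · push_cast
      rfl
    · rw [Complex.arg_ofReal_of_nonneg h2π.le]
      exact Real.pi_ne_zero.symm
  have e4 : Complex.Gamma (s + 2) = (s + 1) * (s * Complex.Gamma s) := by
    rw [show s + 2 = (s + 1) + 1 by ring, Complex.Gamma_add_one _ hs1, Complex.Gamma_add_one _ hs0]
  have e5 : Complex.Gamma (s + 1) = s * Complex.Gamma s := Complex.Gamma_add_one _ hs0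
  rw [e1, e2, e3, e4, e5]
  unfold gG
  have hπ : (π : ℂ) ≠ 0 := by exact_mod_cast Real.pi_ne_zero
  push_cast
  field_simp
  ring

theorem qz_pos {x y : ℝ} (hy : 0 < y) {v : ℤ × ℤ} (hv : v ≠ 0) : 0 < qz x y v := by
  unfold qz
  apply div_pos _ (by positivity)
  by_cases h : v.2 = 0
  · have h1 : v.1 ≠ 0 := fun h1 => hv (Prod.ext h1 h)
    have h2 : (v.1 : ℝ) ≠ 0 := by exact_mod_cast h1
    rw [h]
    simp only [Int.cast_zero, zero_mul, add_zero]
    positivity
  · have h2 : (v.2 : ℝ) ≠ 0 := by exact_mod_cast h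
    have h3 : (0 : ℝ) < ((v.2 : ℝ) * y) ^ 2 := by positivity
    have h4 : (0 : ℝ) ≤ ((v.1 : ℝ) + v.2 * x) ^ 2 := by positivity
    linarith

/-- the Epstein series converges -/
theorem summ_qz {x y : ℝ} (hy : 0 < y) {n : ℕ} (hn : 1 ≤ n) {σ : ℝ} (hσ : 1 < σ) :
    Summable fun v : ℤ × ℤ => (qz x y v / n) ^ (-σ) := by
  have hn0 : (0 : ℝ) < n := by exact_mod_cast hn
  set z : UpperHalfPlane := ⟨⟨x, y⟩, hy⟩ with hz
  have hsum := EisensteinSeries.summable_one_div_norm_rpow (k := 2 * σ) (by linarith)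
  have hsum2 : Summable fun w : Fin 2 → ℤ => ‖(w 0 : ℂ) * (z : ℂ) + w 1‖ ^ (-(2 * σ)) := by
    refine Summable.of_nonneg_of_le (fun w => by positivity)
      (fun w => EisensteinSeries.summand_bound z (k := 2 * σ) (by linarith) w)
      (hsum.mul_left _)
  have hsum3 : Summable fun v : ℤ × ℤ =>
      ‖(v.2 : ℂ) * (z : ℂ) + v.1‖ ^ (-(2 * σ)) := by
    have h := ((Equiv.prodComm ℤ ℤ).trans (finTwoArrowEquiv ℤ).symm).summable_iff.2 hsum2
    exact h
  have e : (fun v : ℤ × ℤ => (qz x y v / n) ^ (-σ)) =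
      fun v => (2 * y * n) ^ σ * ‖(v.2 : ℂ) * (z : ℂ) + v.1‖ ^ (-(2 * σ)) := by
    funext v
    have e1 : ‖(v.2 : ℂ) * (z : ℂ) + v.1‖ ^ 2 = ((v.1 : ℝ) + v.2 * x) ^ 2 + ((v.2 : ℝ) * y) ^ 2 := by
      have hz' : (z : ℂ) = (x : ℂ) + (y : ℂ) * Complex.I := by
        rw [hz]
        exact Complex.ext (by simp) (by simp)
      rw [← Complex.normSq_eq_norm_sq, hz', Complex.normSq_apply]
      have h1 : ((v.2 : ℂ) * ((x : ℂ) + (y : ℂ) * Complex.I) + v.1).re = v.2 * x + v.1 := by
        simp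
      have h2 : ((v.2 : ℂ) * ((x : ℂ) + (y : ℂ) * Complex.I) + v.1).im = v.2 * y := by
        simp
      rw [h1, h2]
      ring
    have e2 : qz x y v / n = ‖(v.2 : ℂ) * (z : ℂ) + v.1‖ ^ 2 / (2 * y * n) := by
      rw [e1]
      unfold qz
      rw [div_div]
    rw [e2, Real.div_rpow (by positivity) (by positivity), Real.rpow_neg (x := 2 * y * n)
      (by positivity), div_inv_eq_mul, mul_comm, ← Real.rpow_natCast, ← Real.rpow_mul (norm_nonneg _)]
    congr 2
    push_cast
    ring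
  rw [e]
  exact hsum3.mul_left _

theorem pf_EZA (hFLS : T_FLS) (hMEL : T_MEL) (hINV : T_INV) (hPSB : T_PSB) :
    Pool.Agent.H61.FM.T_EZA := by
  classical
  intro n L x y hn hLi hy
  have hL : L ∈ Ls n := ((hFLS n L hn).1).2 hLi
  have hn0 : (0 : ℝ) < n := by exact_mod_cast hn
  obtain ⟨hdiff, hinv⟩ := hINV n L x y hn hL hy
  obtain ⟨C, c, hC, hc, hps⟩ := hPSB n L x y 1 hn hL hy one_pos
  set P : ℝ → ℂ := fun u => Psr n L x y (u : ℂ) with hP
  have hPc : ContinuousOn P (Ioi 0) := by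
    have h1 := hdiff.continuousOn
    exact h1.comp Complex.continuous_ofReal.continuousOn (fun u hu => by
      change 0 < (u : ℂ).re
      simpa using hu)
  have hPb : ∀ u : ℝ, 1 < u → ‖P u‖ ≤ C * Real.exp (-(c * u)) := by
    intro u hu
    obtain ⟨h1, h2, h3⟩ := norm_real hu
    obtain ⟨h4, h5⟩ := hps u h1 h2
    rw [h3] at h5
    exact (norm_tsum_le_tsum_norm h4).trans h5
  have hEz : ∀ s : ℂ, Ez s n L x y = mellin P s := by
    intro s
    rw [(hMEL n L x y s hn hL hy).2]
    unfold mellin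
    refine setIntegral_congr_fun measurableSet_Ioi fun u _ => ?_
    rw [smul_eq_mul, mul_comm]
  constructor
  · intro s
    have h1 : DifferentiableAt ℂ (mellin P) s := by
      refine mellin_differentiableAt_of_isBigO_rpow_exp (a := c) (b := s.re - 1) hc
        (hPc.locallyIntegrableOn measurableSet_Ioi) ?_ ?_ (by linarith)
      · refine Asymptotics.IsBigO.of_bound C ?_
        filter_upwards [eventually_gt_atTop (1 : ℝ)] with u hu
        rw [Real.norm_eq_abs, abs_of_pos (Real.exp_pos _), neg_mul]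
        exact hPb u hu
      · have h2 := (isLittleO_exp_neg_mul_rpow_atTop hc (s.re - 2)).isBigO
        have h3 := h2.comp_tendsto (tendsto_inv_nhdsGT_zero (𝕜 := ℝ))
        obtain ⟨K, hK⟩ := h3.bound
        refine Asymptotics.IsBigO.of_bound (C * K) ?_
        have h4 : ∀ᶠ u : ℝ in 𝓝[>] 0, u < 1 :=
          mem_nhdsWithin_of_mem_nhds (Iio_mem_nhds one_pos)
        filter_upwards [hK, h4, self_mem_nhdsWithin] with u hu1 hu2 hu3
        have hu0 : 0 < u := hu3
        have h5 : P u = ((u⁻¹ : ℝ) : ℂ) * P u⁻¹ := by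
          have h6 := hinv (u : ℂ) (by simpa using hu0)
          have h7 : (u : ℂ) ≠ 0 := by exact_mod_cast hu0.ne'
          rw [hP]
          simp only [Complex.ofReal_inv]
          rw [h6]
          field_simp
        have h8 : 1 < u⁻¹ := (one_lt_inv₀ hu0).2 hu2
        rw [h5, norm_mul, Complex.norm_real, Real.norm_eq_abs, abs_of_pos (by positivity)]
        simp only [Function.comp_apply, Real.norm_eq_abs, abs_of_pos (Real.exp_pos _)] at hu1
        rw [abs_of_pos (by positivity)] at hu1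
        have h9 : (u : ℝ) ^ (-(s.re - 1)) = u⁻¹ * (u⁻¹) ^ (s.re - 2) := by
          rw [Real.rpow_neg hu0.le, ← Real.inv_rpow hu0.le]
          have : (s.re - 1) = 1 + (s.re - 2) := by ring
          rw [this, Real.rpow_add (by positivity), Real.rpow_one]
        rw [Real.norm_eq_abs, abs_of_pos (by positivity), h9]
        calc u⁻¹ * ‖P u⁻¹‖ ≤ u⁻¹ * (C * Real.exp (-(c * u⁻¹))) := by
              gcongr
              exact hPb _ h8
          _ ≤ u⁻¹ * (C * (K * (u⁻¹) ^ (s.re - 2))) := by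
              rw [neg_mul] at hu1
              gcongr
          _ = _ := by ring
    have e : (fun s : ℂ => Ez s n L x y) = mellin P := funext hEz
    rw [e]
    exact h1
  · intro s hs
    have hs0 : 0 < s.re := by linarith
    have hsum := summ_qz (x := x) hy hn hs
    -- the series
    set T : ℤ × ℤ → ℂ := fun v =>
      if v ∈ L ∧ v ≠ 0 then (((qz x y v / n : ℝ)) : ℂ) ^ (-s) else 0 with hT
    have hTs : Summable T := by
      refine Summable.of_norm (Summable.of_nonneg_of_le (fun v => norm_nonneg _) (fun v => ?_) hsum)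
      rw [hT]
      by_cases hv : v ∈ L ∧ v ≠ 0
      · simp only [if_pos hv]
        have hq : 0 < qz x y v / n := div_pos (qz_pos hy hv.2) hn0
        rw [Complex.norm_cpow_eq_rpow_re_of_pos hq, Complex.neg_re]
      · simp only [if_neg hv, norm_zero]
        have : 0 ≤ qz x y v / n := by
          unfold qz
          positivity
        positivity
    refine ⟨∑' v, T v, hTs.hasSum, ?_⟩
    -- the terms
    set F : ℤ × ℤ → ℝ → ℂ := fun v u => pst n L x y (u : ℂ) v * (u : ℂ) ^ (s - 1) with hF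
    set N : ℝ → ℝ := fun t => ‖phc (t : ℂ)‖ * t ^ (s.re - 1) with hN
    have hFv : ∀ v : ℤ × ℤ, v ∈ L ∧ v ≠ 0 → F v = fun u : ℝ =>
        (u : ℂ) ^ (s - 1) • phc (((qz x y v / n) * u : ℝ) : ℂ) := by
      intro v hv
      funext u
      have e0 : pst n L x y (u : ℂ) v = phc ((u : ℂ) * ((qz x y v / n : ℝ) : ℂ)) := by
        unfold pst
        exact if_pos hv
      change pst n L x y (u : ℂ) v * (u : ℂ) ^ (s - 1) =
        (u : ℂ) ^ (s - 1) • phc (((qz x y v / n) * u : ℝ) : ℂ)
      rw [e0, smul_eq_mul, mul_comm, Complex.ofReal_mul, mul_comm (u : ℂ)]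
    have hF0 : ∀ v : ℤ × ℤ, ¬ (v ∈ L ∧ v ≠ 0) → F v = fun _ => 0 := by
      intro v hv
      funext u
      rw [hF]
      unfold pst
      simp only [if_neg hv, zero_mul]
    have hFi : ∀ v, Integrable (F v) (volume.restrict (Ioi 0)) := by
      intro v
      by_cases hv : v ∈ L ∧ v ≠ 0
      · have hq : 0 < qz x y v / n := div_pos (qz_pos hy hv.2) hn0
        rw [hFv v hv]
        exact (MellinConvergent.comp_mul_left (f := fun t : ℝ => phc (t : ℂ)) hq).2 (conv_phc hs0)
      · rw [hF0 v hv]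
        exact integrable_zero _ _ _
    have hnorm : ∀ v : ℤ × ℤ, v ∈ L ∧ v ≠ 0 → ∫ u in Ioi (0 : ℝ), ‖F v u‖ =
        (qz x y v / n) ^ (-s.re) * ∫ t in Ioi (0 : ℝ), N t := by
      intro v hv
      have hq : 0 < qz x y v / n := div_pos (qz_pos hy hv.2) hn0
      set q := qz x y v / n with hq'
      have e1 : ∫ u in Ioi (0 : ℝ), ‖F v u‖ = ∫ u in Ioi (0 : ℝ), q ^ (1 - s.re) * N (q * u) := by
        refine setIntegral_congr_fun measurableSet_Ioi fun u hu => ?_
        have hu0 : (0 : ℝ) < u := hu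
        rw [hFv v hv]
        change ‖(u : ℂ) ^ (s - 1) • phc ((q * u : ℝ) : ℂ)‖ =
          q ^ (1 - s.re) * (‖phc ((q * u : ℝ) : ℂ)‖ * (q * u) ^ (s.re - 1))
        rw [norm_smul, Complex.norm_cpow_eq_rpow_re_of_pos hu0, Complex.sub_re, Complex.one_re,
          Real.mul_rpow hq.le hu0.le]
        have e2 : q ^ (1 - s.re) * q ^ (s.re - 1) = 1 := by
          rw [← Real.rpow_add hq]
          simp
        calc u ^ (s.re - 1) * ‖phc ((q * u : ℝ) : ℂ)‖ =
            (q ^ (1 - s.re) * q ^ (s.re - 1)) * (‖phc ((q * u : ℝ) : ℂ)‖ * u ^ (s.re - 1)) := by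
              rw [e2]; ring
          _ = _ := by ring
      rw [e1, integral_const_mul, integral_comp_mul_left_Ioi N 0 hq, mul_zero, smul_eq_mul,
        ← mul_assoc]
      congr 1
      rw [← Real.rpow_neg_one, ← Real.rpow_add hq]
      congr 1
      ring
    have hK0 : 0 ≤ ∫ t in Ioi (0 : ℝ), N t := by
      refine setIntegral_nonneg measurableSet_Ioi fun t ht => ?_
      have : (0 : ℝ) < t := ht
      positivity
    have hFs : Summable fun v => ∫ u in Ioi (0 : ℝ), ‖F v u‖ := by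
      refine Summable.of_nonneg_of_le (fun v => integral_nonneg fun u => norm_nonneg _) (fun v => ?_)
        (hsum.mul_right (∫ t in Ioi (0 : ℝ), N t))
      by_cases hv : v ∈ L ∧ v ≠ 0
      · rw [hnorm v hv]
      · rw [hF0 v hv]
        simp only [norm_zero, integral_zero]
        have : 0 ≤ qz x y v / n := by
          unfold qz
          positivity
        positivity
    have hHS := hasSum_integral_of_summable_integral_norm hFi hFs
    have e1 : ∫ u in Ioi (0 : ℝ), ∑' v, F v u = Ez s n L x y := by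
      rw [hEz s]
      unfold mellin
      refine setIntegral_congr_fun measurableSet_Ioi fun u _ => ?_
      change ∑' v, pst n L x y (u : ℂ) v * (u : ℂ) ^ (s - 1) = _
      rw [tsum_mul_right, smul_eq_mul, mul_comm]
      rfl
    have e2 : ∀ v, ∫ u in Ioi (0 : ℝ), F v u = gG s * T v := by
      intro v
      by_cases hv : v ∈ L ∧ v ≠ 0
      · have hq : 0 < qz x y v / n := div_pos (qz_pos hy hv.2) hn0
        rw [hFv v hv]
        have h1 := mellin_comp_mul_left (fun t : ℝ => phc (t : ℂ)) s hq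
        rw [mellin_phc hs0] at h1
        unfold mellin at h1
        rw [h1, hT, smul_eq_mul, mul_comm]
        simp only [if_pos hv]
      · rw [hF0 v hv, hT]
        simp only [if_neg hv, integral_zero, mul_zero]
    rw [e1] at hHS
    have h3 : HasSum (fun v => ∫ u in Ioi (0 : ℝ), F v u) (gG s * ∑' v, T v) := by
      have h4 := hTs.hasSum.mul_left (gG s)
      have e3 : (fun v => ∫ u in Ioi (0 : ℝ), F v u) = fun v => gG s * T v := funext e2
      rw [e3]
      exact h4
    exact hHS.unique h3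

end Pool.Agent.H45.FM
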