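import Pool.Agent.H89.FM.Targets2

/-!
`MP_52e316_nt`, fourth moment over the class groups: row ECC (the Epstein zeta functions are
continuous, and holomorphic in each variable).
-/

set_option autoImplicit false

open MeasureTheory Set Filter
open scoped Real Matrix MatrixGroups

namespace Pool.Agent.H45.FM

open Pool.Agent.H31.CN Pool.Agent.H89.FM

theorem isOpen_rg (ρ t : ℝ) : IsOpen {p : ℂ × ℂ | Rg ρ t p.1 p.2} := by
  have hx : Continuous fun p : ℂ × ℂ => p.1.re := Complex.continuous_re.comp continuous_fst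
  have hy : Continuous fun p : ℂ × ℂ => p.2.re := Complex.continuous_re.comp continuous_snd
  have hx' : Continuous fun p : ℂ × ℂ => p.1.im := Complex.continuous_im.comp continuous_fst
  have hy' : Continuous fun p : ℂ × ℂ => p.2.im := Complex.continuous_im.comp continuous_snd
  have e : {p : ℂ × ℂ | Rg ρ t p.1 p.2} =
      {p | |p.1.re| < 10 * ρ} ∩ ({p | ρ / 10 < p.2.re} ∩ ({p | p.2.re < 10 * ρ} ∩
        ({p | 2000 * (1 + |t|) * |p.1.im| < ρ} ∩ {p | 2000 * (1 + |t|) * |p.2.im| < ρ}))) := rfl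
  rw [e]
  exact (isOpen_lt hx.abs continuous_const).inter
    ((isOpen_lt continuous_const hy).inter ((isOpen_lt hy continuous_const).inter
      ((isOpen_lt (continuous_const.mul hx'.abs) continuous_const).inter
        (isOpen_lt (continuous_const.mul hy'.abs) continuous_const))))

theorem rg_ne {ρ t : ℝ} {x y : ℂ} (hρ : 0 < ρ) (h : Rg ρ t x y) : y ≠ 0 := by
  intro h0
  have := h.2.1
  rw [h0, Complex.zero_re] at this
  linarith

theorem nr_pos' {ρ : ℝ} (hρ : 0 < ρ) {v : ℤ × ℤ} (hv : v ≠ 0) : 0 < nr ρ v := by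
  unfold nr
  have h1 : 0 ≤ (v.1 : ℝ) ^ 2 / ρ := by positivity
  have h2 : 0 ≤ ρ * (v.2 : ℝ) ^ 2 := by positivity
  by_cases h : v.1 = 0
  · have h' : v.2 ≠ 0 := fun h0 => hv (Prod.ext h h0)
    have : (v.2 : ℝ) ≠ 0 := by exact_mod_cast h'
    have : 0 < ρ * (v.2 : ℝ) ^ 2 := by positivity
    linarith
  · have : (v.1 : ℝ) ≠ 0 := by exact_mod_cast h
    have : 0 < (v.1 : ℝ) ^ 2 / ρ := by positivity
    linarith

theorem pf_ECC (hKCB : T_KCB) (hKCD : T_KCD) (hQCB : T_QCB) (hLSM : T_LSM) : T_ECC := by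
  classical
  intro ρ n L s hρ hn hL hs
  obtain ⟨C, k, hC, hK⟩ := hKCB
  obtain ⟨c, C', hc, hc1, hC', hQ⟩ := hQCB
  obtain ⟨C'', hC'', hS⟩ := hLSM (1 / 8) (by norm_num) le_rfl
  set t := s.im with ht
  have hn0 : (0 : ℝ) < n := by exact_mod_cast hn
  have hT0 : 1 ≤ (1 + |t|) / c := by
    rw [one_le_div hc]
    have := abs_nonneg t
    linarith
  obtain ⟨hsum, -⟩ := hS ρ ((1 + |t|) / c) n L hρ hT0 hn hL
  set a : ℝ := 1 / 2 + 1 / 8 with ha
  set M : ℝ := C * (1 + |t|) ^ k * Real.exp (-(π / 2 * |t|)) * c ^ (-a) with hM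
  have hM0 : 0 ≤ M := by rw [hM]; positivity
  set g : ℤ × ℤ → ℝ := fun v => if v ∈ L ∧ v ≠ 0 then
      (nr ρ v / n) ^ (-a) * Real.exp (-(nr ρ v / (n * ((1 + |t|) / c)))) else 0 with hg
  have hMg : Summable fun v => M * g v := hsum.mul_left M
  -- properties of the argument
  have harg : ∀ (x y : ℂ) (v : ℤ × ℤ), Rg ρ t x y → v ≠ 0 →
      0 < (qc x y v / n).re ∧ 10 * (1 + |t|) * |(qc x y v / n).im| ≤ (qc x y v / n).re ∧
        c * (nr ρ v / n) ≤ (qc x y v / n).re := by
    intro x y v hxy hv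
    obtain ⟨h1, h2, h3, -⟩ := hQ ρ t x y v hρ hxy hv
    have e1 : (qc x y v / n).re = (qc x y v).re / n := by
      rw [show (n : ℂ) = ((n : ℝ) : ℂ) by simp, Complex.div_ofReal_re]
    have e2 : (qc x y v / n).im = (qc x y v).im / n := by
      rw [show (n : ℂ) = ((n : ℝ) : ℂ) by simp, Complex.div_ofReal_im]
    rw [e1, e2]
    refine ⟨by positivity, ?_, ?_⟩
    · rw [abs_div, abs_of_pos hn0, ← mul_div_assoc]
      gcongr
    · rw [← mul_div_assoc]
      gcongr
  -- the bound of the terms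
  have hbd : ∀ (x y : ℂ) (v : ℤ × ℤ), Rg ρ t x y →
      ‖(if v ∈ L ∧ v ≠ 0 then Kc (tu t) s (qc x y v / n) else 0 : ℂ)‖ ≤ M * g v := by
    intro x y v hxy
    by_cases hv : v ∈ L ∧ v ≠ 0
    · rw [if_pos hv]
      obtain ⟨h1, h2, h3⟩ := harg x y v hxy hv.2
      have h4 := (hK (1 / 8) s (qc x y v / n) (by norm_num) le_rfl hs h1 h2).2
      have hnr : 0 < nr ρ v := nr_pos' hρ hv.2
      have hcn : 0 < c * (nr ρ v / n) := by positivity
      have h5 : (qc x y v / n).re ^ (-a) ≤ c ^ (-a) * (nr ρ v / n) ^ (-a) := by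
        rw [← Real.mul_rpow hc.le (by positivity)]
        exact Real.rpow_le_rpow_of_nonpos hcn h3 (by rw [ha]; norm_num)
      have h6 : Real.exp (-((qc x y v / n).re / (1 + |t|))) ≤
          Real.exp (-(nr ρ v / (n * ((1 + |t|) / c)))) := by
        apply Real.exp_le_exp.2
        apply neg_le_neg
        have e : nr ρ v / (n * ((1 + |t|) / c)) = c * (nr ρ v / n) / (1 + |t|) := by
          field_simp
        rw [e]
        have : 0 < 1 + |t| := by positivity
        gcongr
      refine h4.trans ?_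
      have hgv : g v = (nr ρ v / n) ^ (-a) * Real.exp (-(nr ρ v / (n * ((1 + |t|) / c)))) := by
        rw [hg]
        exact if_pos hv
      rw [hgv, hM]
      calc C * (1 + |t|) ^ k * Real.exp (-(π / 2 * |t|)) * (qc x y v / n).re ^ (-a) *
            Real.exp (-((qc x y v / n).re / (1 + |t|)))
          ≤ C * (1 + |t|) ^ k * Real.exp (-(π / 2 * |t|)) * (c ^ (-a) * (nr ρ v / n) ^ (-a)) *
            Real.exp (-(nr ρ v / (n * ((1 + |t|) / c)))) := by gcongr
        _ = _ := by ring
    · rw [if_neg hv, norm_zero]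
      have : g v = 0 := by
        rw [hg]
        exact if_neg hv
      rw [this, mul_zero]
  -- the argument is holomorphic
  have hqx : ∀ (y : ℂ) (v : ℤ × ℤ) (x : ℂ), DifferentiableAt ℂ (fun x' => qc x' y v / n) x := by
    intro y v x
    unfold qc
    fun_prop
  have hqy : ∀ (x : ℂ) (v : ℤ × ℤ) (y : ℂ), y ≠ 0 →
      DifferentiableAt ℂ (fun y' => qc x y' v / n) y := by
    intro x v y hy
    unfold qc
    have h2 : (2 : ℂ) * y ≠ 0 := mul_ne_zero two_ne_zero hy
    fun_prop (disch := assumption)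
  refine ⟨?_, ?_⟩
  · -- continuity
    change ContinuousOn (fun p : ℂ × ℂ => ∑' v : ℤ × ℤ,
      (if v ∈ L ∧ v ≠ 0 then Kc (tu t) s (qc p.1 p.2 v / n) else 0 : ℂ)) _
    refine continuousOn_tsum (fun v => ?_) hMg (fun v p hp => hbd p.1 p.2 v hp)
    by_cases hv : v ∈ L ∧ v ≠ 0
    · simp only [if_pos hv]
      intro p hp
      obtain ⟨h1, h2, -⟩ := harg p.1 p.2 v hp hv.2
      have h3 := (hKCD s _ hs h1 h2).continuousAt
      have h4 : ContinuousAt (fun p : ℂ × ℂ => qc p.1 p.2 v / n) p := by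
        unfold qc
        have h5 : (2 : ℂ) * p.2 ≠ 0 := mul_ne_zero two_ne_zero (rg_ne hρ hp)
        fun_prop (disch := assumption)
      have h6 : ContinuousAt (fun p : ℂ × ℂ => Kc (tu t) s (qc p.1 p.2 v / n)) p :=
        ContinuousAt.comp (g := fun r => Kc (tu t) s r) h3 h4
      exact h6.continuousWithinAt
    · simp only [if_neg hv]
      exact continuousOn_const
  · intro x y hxy
    constructor
    · have hU : IsOpen {x' : ℂ | Rg ρ t x' y} := by
        have := (isOpen_rg ρ t).preimage (f := fun x' : ℂ => (x', y)) (by fun_prop)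
        exact this
      have h := Complex.differentiableOn_tsum_of_summable_norm
        (F := fun (v : ℤ × ℤ) (x' : ℂ) =>
          (if v ∈ L ∧ v ≠ 0 then Kc (tu t) s (qc x' y v / n) else 0 : ℂ)) hMg ?_ hU
        (fun v x' hx' => hbd x' y v hx')
      · exact h.differentiableAt (hU.mem_nhds hxy)
      · intro v
        by_cases hv : v ∈ L ∧ v ≠ 0
        · simp only [if_pos hv]
          intro x' hx'
          obtain ⟨h1, h2, -⟩ := harg x' y v hx' hv.2
          have h3 := hKCD s _ hs h1 h2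
          exact (DifferentiableAt.comp (g := fun r => Kc (tu t) s r) x' h3
            (hqx y v x')).differentiableWithinAt
        · simp only [if_neg hv]
          exact differentiableOn_const _
    · have hU : IsOpen {y' : ℂ | Rg ρ t x y'} := by
        have := (isOpen_rg ρ t).preimage (f := fun y' : ℂ => (x, y')) (by fun_prop)
        exact this
      have h := Complex.differentiableOn_tsum_of_summable_norm
        (F := fun (v : ℤ × ℤ) (y' : ℂ) =>
          (if v ∈ L ∧ v ≠ 0 then Kc (tu t) s (qc x y' v / n) else 0 : ℂ)) hMg ?_ hU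
        (fun v y' hy' => hbd x y' v hy')
      · exact h.differentiableAt (hU.mem_nhds hxy)
      · intro v
        by_cases hv : v ∈ L ∧ v ≠ 0
        · simp only [if_pos hv]
          intro y' hy'
          obtain ⟨h1, h2, -⟩ := harg x y' v hy' hv.2
          have h3 := hKCD s _ hs h1 h2
          exact (DifferentiableAt.comp (g := fun r => Kc (tu t) s r) y' h3
            (hqy x v y' (rg_ne hρ hy'))).differentiableWithinAt
        · simp only [if_neg hv]
          exact differentiableOn_const _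

end Pool.Agent.H45.FM
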