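import Pool.Agent.H89.FM.Targets2

/-!
`MP_52e316_nt`, fourth moment over the class groups: row MEL (the Epstein zeta function as a Mellin
transform).
-/

set_option autoImplicit false

open MeasureTheory Set Filter
open scoped Real Matrix MatrixGroups

namespace Pool.Agent.H45.FM

open Pool.Agent.H31.CN Pool.Agent.H89.FM

theorem phc_cont : Continuous phc := by
  unfold phc
  fun_prop

theorem cpow_cont (s : ℂ) : ContinuousOn (fun u : ℝ => (u : ℂ) ^ s) (Ioi 0) := fun u hu =>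
  (Complex.continuousAt_ofReal_cpow_const u s (Or.inr (ne_of_gt hu))).continuousWithinAt

/-- powers times an exponential are integrable -/
theorem int_pow_exp (a : ℝ) {c : ℝ} (hc : 0 < c) :
    IntegrableOn (fun u : ℝ => u ^ a * Real.exp (-(c * u))) (Ioi 1) := by
  have h := integrableOn_rpow_mul_exp_neg_mul_rpow (p := 1) (s := |a|) (b := c)
    (by linarith [abs_nonneg a]) one_pos hc
  have h' : IntegrableOn (fun u : ℝ => u ^ |a| * Real.exp (-c * u ^ (1 : ℝ))) (Ioi 1) :=
    h.mono_set (Ioi_subset_Ioi zero_le_one)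
  refine Integrable.mono' h' ?_ ?_
  · refine ContinuousOn.aestronglyMeasurable ?_ measurableSet_Ioi
    intro u hu
    have : u ≠ 0 := by
      have : (1 : ℝ) < u := hu
      linarith
    exact ((Real.continuousAt_rpow_const u a (Or.inl this)).mul (by fun_prop)).continuousWithinAt
  · refine (ae_restrict_iff' measurableSet_Ioi).2 (ae_of_all _ fun u hu => ?_)
    have h1 : (1 : ℝ) < u := hu
    have h0 : 0 < u := by linarith
    rw [Real.norm_eq_abs, abs_of_nonneg (by positivity), Real.rpow_one, neg_mul]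
    gcongr
    · exact h1.le
    · exact le_abs_self a

theorem norm_real {u : ℝ} (hu : 1 < u) : (1 : ℝ) ≤ ‖(u : ℂ)‖ ∧ ‖(u : ℂ)‖ ≤ 1 * (u : ℂ).re ∧
    ‖(u : ℂ)‖ = u := by
  have h : ‖(u : ℂ)‖ = u := by
    rw [Complex.norm_real, Real.norm_eq_abs, abs_of_pos (by linarith)]
  rw [h]
  refine ⟨hu.le, ?_, rfl⟩
  simp

theorem pf_MEL (hINV : T_INV) (hPSB : T_PSB) : T_MEL := by
  classical
  intro n L x y s hn hL hy
  obtain ⟨hdiff, hinv⟩ := hINV n L x y hn hL hy
  obtain ⟨C, c, hC, hc, hps⟩ := hPSB n L x y 1 hn hL hy one_pos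
  set P : ℝ → ℂ := fun u => Psr n L x y (u : ℂ) with hP
  have hPc : ContinuousOn P (Ioi 0) := by
    have h1 := hdiff.continuousOn
    exact h1.comp Complex.continuous_ofReal.continuousOn (fun u hu => by
      change 0 < (u : ℂ).re
      simpa using hu)
  have hPb : ∀ u : ℝ, 1 < u → ‖P u‖ ≤ C * Real.exp (-(c * u)) := by
    intro u hu
    obtain ⟨h1, h2, h3⟩ := norm_real hu
    obtain ⟨h4, h5⟩ := hps u h1 h2
    rw [h3] at h5
    exact (norm_tsum_le_tsum_norm h4).trans h5
  -- the integrals over `(1, ∞)`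
  have hI1 : ∀ z : ℂ, IntegrableOn (fun u : ℝ => P u * (u : ℂ) ^ z) (Ioi 1) := by
    intro z
    refine Integrable.mono' ((int_pow_exp z.re hc).const_mul C) ?_ ?_
    · refine ContinuousOn.aestronglyMeasurable ?_ measurableSet_Ioi
      exact (hPc.mul (cpow_cont z)).mono (Ioi_subset_Ioi zero_le_one)
    · refine (ae_restrict_iff' measurableSet_Ioi).2 (ae_of_all _ fun u hu => ?_)
      have h1 : (1 : ℝ) < u := hu
      rw [norm_mul, Complex.norm_cpow_eq_rpow_re_of_pos (by linarith)]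
      calc ‖P u‖ * u ^ z.re ≤ (C * Real.exp (-(c * u))) * u ^ z.re := by
            gcongr
            exact hPb u h1
        _ = C * (u ^ z.re * Real.exp (-(c * u))) := by ring
  -- the inversion
  have hkey : ∀ u : ℝ, 0 < u → (|(-1 : ℝ)| * u ^ ((-1 : ℝ) - 1)) •
      (P (u ^ (-1 : ℝ)) * ((u ^ (-1 : ℝ) : ℝ) : ℂ) ^ (s - 1)) = P u * (u : ℂ) ^ (-s) := by
    intro u hu
    have hu0 : (u : ℂ) ≠ 0 := by exact_mod_cast hu.ne'
    have h1 : P (u ^ (-1 : ℝ)) = (u : ℂ) * P u := by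
      have := hinv (u : ℂ) (by simpa using hu)
      rw [hP]
      simp only [Real.rpow_neg_one, Complex.ofReal_inv]
      exact this
    have h2 : ((u ^ (-1 : ℝ) : ℝ) : ℂ) ^ (s - 1) = (u : ℂ) ^ (1 - s) := by
      rw [Real.rpow_neg_one, Complex.ofReal_inv, Complex.inv_cpow, ← Complex.cpow_neg, neg_sub]
      rw [Complex.arg_ofReal_of_nonneg hu.le]
      exact Real.pi_ne_zero.symm
    have h3 : (u : ℂ) ^ (1 - s) = u * (u : ℂ) ^ (-s) := by
      rw [sub_eq_add_neg, Complex.cpow_add _ _ hu0, Complex.cpow_one]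
    have h4 : (|(-1 : ℝ)| * u ^ ((-1 : ℝ) - 1)) = (u ^ 2)⁻¹ := by
      rw [abs_neg, abs_one, one_mul, show (-1 : ℝ) - 1 = -(2 : ℕ) by norm_num,
        Real.rpow_neg hu.le, Real.rpow_natCast]
    rw [h1, h2, h3, h4, Complex.real_smul]
    push_cast
    field_simp
  set F : ℝ → ℂ := fun u => P u * (u : ℂ) ^ (s - 1) with hF
  set G : ℝ → ℂ := fun u => P u * (u : ℂ) ^ (-s) with hG
  have hkey2 : ∀ u ∈ Ioi (0 : ℝ), (|(-1 : ℝ)| * u ^ ((-1 : ℝ) - 1)) •
      (Iio (1 : ℝ)).indicator F (u ^ (-1 : ℝ)) = (Ioi (1 : ℝ)).indicator G u := by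
    intro u hu
    have hu' : 0 < u := hu
    by_cases h1 : 1 < u
    · have h2 : u ^ (-1 : ℝ) ∈ Iio (1 : ℝ) := by
        rw [Real.rpow_neg_one]
        exact inv_lt_one_of_one_lt₀ h1
      rw [indicator_of_mem h2, indicator_of_mem (show u ∈ Ioi (1 : ℝ) from h1)]
      exact hkey u hu'
    · have h2 : u ^ (-1 : ℝ) ∉ Iio (1 : ℝ) := by
        rw [Real.rpow_neg_one]
        intro h3
        have h4 : u⁻¹ < 1 := h3
        exact h1 ((inv_lt_one₀ hu').1 h4)
      rw [indicator_of_notMem h2, indicator_of_notMem (show u ∉ Ioi (1 : ℝ) from h1), smul_zero]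
  have hGi : IntegrableOn ((Ioi (1 : ℝ)).indicator G) (Ioi 0) :=
    ((hI1 (-s)).integrable_indicator measurableSet_Ioi).integrableOn
  have hH : IntegrableOn ((Iio (1 : ℝ)).indicator F) (Ioi 0) := by
    rw [← integrableOn_Ioi_comp_rpow_iff ((Iio (1 : ℝ)).indicator F) (p := -1) (by norm_num)]
    exact (integrableOn_congr_fun hkey2 measurableSet_Ioi).2 hGi
  have hHv : ∫ u in Ioi (0 : ℝ), (Iio (1 : ℝ)).indicator F u = ∫ u in Ioi (1 : ℝ), G u := by
    rw [← integral_comp_rpow_Ioi ((Iio (1 : ℝ)).indicator F) (p := -1) (by norm_num),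
      setIntegral_congr_fun measurableSet_Ioi hkey2, setIntegral_indicator measurableSet_Ioi,
      Ioi_inter_Ioi, max_eq_right zero_le_one]
  have hF1 : IntegrableOn F (Ici 1) := by
    rw [integrableOn_Ici_iff_integrableOn_Ioi]
    exact hI1 (s - 1)
  have hFi : IntegrableOn ((Ici (1 : ℝ)).indicator F) (Ioi 0) :=
    (hF1.integrable_indicator measurableSet_Ici).integrableOn
  have hFv : ∫ u in Ioi (0 : ℝ), (Ici (1 : ℝ)).indicator F u = ∫ u in Ioi (1 : ℝ), F u := by
    rw [setIntegral_indicator measurableSet_Ici]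
    have e : Ioi (0 : ℝ) ∩ Ici 1 = Ici 1 := by
      refine inter_eq_right.2 fun u hu => ?_
      have hu1 : (1 : ℝ) ≤ u := hu
      exact lt_of_lt_of_le one_pos hu1
    rw [e, integral_Ici_eq_integral_Ioi]
  have hdec : F = fun u => (Iio (1 : ℝ)).indicator F u + (Ici (1 : ℝ)).indicator F u := by
    funext u
    by_cases h : u < 1
    · rw [indicator_of_mem (show u ∈ Iio (1 : ℝ) from h),
        indicator_of_notMem (show u ∉ Ici (1 : ℝ) from not_le.2 h), add_zero]
    · rw [indicator_of_notMem (show u ∉ Iio (1 : ℝ) from h),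
        indicator_of_mem (show u ∈ Ici (1 : ℝ) from not_lt.1 h), zero_add]
  have hint : IntegrableOn F (Ioi 0) := by
    rw [hdec]
    exact hH.add hFi
  refine ⟨hint, ?_⟩
  have hval : ∫ u in Ioi (0 : ℝ), F u = ∫ u in Ioi (1 : ℝ), (G u + F u) := by
    rw [integral_add (hI1 (-s)) (hI1 (s - 1)), ← hHv, ← hFv, ← integral_add hH hFi]
    exact congrArg (fun f : ℝ → ℂ => ∫ u in Ioi (0 : ℝ), f u) hdec
  change Ez s n L x y = ∫ u in Ioi (0 : ℝ), F u
  rw [hval]
  -- the exchange of the sum and the integral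
  set w : ℝ → ℂ := fun u => (u : ℂ) ^ (-s) + (u : ℂ) ^ (s - 1) with hw
  have hwc : ContinuousOn w (Ioi 1) :=
    ((cpow_cont (-s)).add (cpow_cont (s - 1))).mono (Ioi_subset_Ioi zero_le_one)
  have hpc : ∀ v : ℤ × ℤ, Continuous fun u : ℝ => pst n L x y (u : ℂ) v := by
    intro v
    unfold pst
    by_cases hv : v ∈ L ∧ v ≠ 0
    · simp only [if_pos hv]
      exact phc_cont.comp (by fun_prop)
    · simp only [if_neg hv]
      exact continuous_const
  have hmeas : ∀ v : ℤ × ℤ, AEStronglyMeasurable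
      (fun u : ℝ => pst n L x y (u : ℂ) v * w u) (volume.restrict (Ioi 1)) := by
    intro v
    exact ((hpc v).continuousOn.mul hwc).aestronglyMeasurable measurableSet_Ioi
  have hbdint : IntegrableOn (fun u : ℝ => C * (u ^ (-s).re * Real.exp (-(c * u))) +
      C * (u ^ (s - 1).re * Real.exp (-(c * u)))) (Ioi 1) :=
    ((int_pow_exp (-s).re hc).const_mul C).add ((int_pow_exp (s - 1).re hc).const_mul C)
  have hfin : ∑' v : ℤ × ℤ, ∫⁻ u in Ioi (1 : ℝ), ‖pst n L x y (u : ℂ) v * w u‖ₑ ≠ ⊤ := by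
    rw [← lintegral_tsum (fun v => (hmeas v).enorm)]
    refine ne_of_lt (lt_of_le_of_lt ?_ hbdint.lintegral_lt_top)
    refine setLIntegral_mono' measurableSet_Ioi fun u hu => ?_
    have h1 : (1 : ℝ) < u := hu
    obtain ⟨h2, h3, h4⟩ := norm_real h1
    obtain ⟨h5, h6⟩ := hps u h2 h3
    rw [h4] at h6
    have hw1 : ‖w u‖ ≤ u ^ (-s).re + u ^ (s - 1).re := by
      refine (norm_add_le _ _).trans ?_
      rw [Complex.norm_cpow_eq_rpow_re_of_pos (by linarith),
        Complex.norm_cpow_eq_rpow_re_of_pos (by linarith)]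
    have h7 : Summable fun v : ℤ × ℤ => ‖pst n L x y (u : ℂ) v * w u‖ := by
      simp only [norm_mul]
      exact h5.mul_right _
    calc ∑' v : ℤ × ℤ, ‖pst n L x y (u : ℂ) v * w u‖ₑ
        = ENNReal.ofReal (∑' v : ℤ × ℤ, ‖pst n L x y (u : ℂ) v * w u‖) := by
          rw [ENNReal.ofReal_tsum_of_nonneg (fun v => norm_nonneg _) h7]
          simp only [ofReal_norm]
      _ ≤ _ := by
          apply ENNReal.ofReal_le_ofReal
          simp only [norm_mul]
          rw [tsum_mul_right]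
          calc (∑' v : ℤ × ℤ, ‖pst n L x y (u : ℂ) v‖) * ‖w u‖
              ≤ (C * Real.exp (-(c * u))) * (u ^ (-s).re + u ^ (s - 1).re) := by
                apply mul_le_mul h6 hw1 (norm_nonneg _) (by positivity)
            _ = _ := by ring
  have hsum := integral_tsum hmeas hfin
  have h1 : ∫ u in Ioi (1 : ℝ), (G u + F u) =
      ∫ u in Ioi (1 : ℝ), ∑' v : ℤ × ℤ, pst n L x y (u : ℂ) v * w u := by
    refine setIntegral_congr_fun measurableSet_Ioi fun u _ => ?_
    change P u * (u : ℂ) ^ (-s) + P u * (u : ℂ) ^ (s - 1) = _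
    rw [tsum_mul_right, ← mul_add]
    rfl
  rw [h1, hsum]
  unfold Ez
  refine tsum_congr fun v => ?_
  by_cases hv : v ∈ L ∧ v ≠ 0
  · rw [if_pos hv]
    unfold Kk
    refine setIntegral_congr_fun measurableSet_Ioi fun u hu => ?_
    have hu' : (1 : ℝ) < u := hu
    have hu0 : (u : ℂ) ≠ 0 := by
      have : u ≠ 0 := by linarith
      exact_mod_cast this
    have e1 : pst n L x y (u : ℂ) v = phc ((u : ℂ) * ((qz x y v / n : ℝ) : ℂ)) := by
      unfold pst
      exact if_pos hv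
    have e2 : (u : ℂ) ^ (-s) = (u : ℂ) ^ (1 - s) / u := by
      rw [sub_eq_add_neg, Complex.cpow_add _ _ hu0, Complex.cpow_one]
      field_simp
    have e3 : (u : ℂ) ^ (s - 1) = (u : ℂ) ^ s / u := by
      rw [Complex.cpow_sub _ _ hu0, Complex.cpow_one]
    change (phc (1 * u * ((qz x y v / n : ℝ) : ℂ)) * (1 * u : ℂ) ^ s +
      phc (1⁻¹ * u * ((qz x y v / n : ℝ) : ℂ)) * (1⁻¹ * u : ℂ) ^ (1 - s)) / u =
      pst n L x y (u : ℂ) v * ((u : ℂ) ^ (-s) + (u : ℂ) ^ (s - 1))
    rw [e1, e2, e3, inv_one, one_mul]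
    ring
  · rw [if_neg hv]
    have : ∀ u : ℝ, pst n L x y (u : ℂ) v * w u = 0 := by
      intro u
      unfold pst
      rw [if_neg hv, zero_mul]
    simp only [this, integral_zero]

end Pool.Agent.H45.FM
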