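import Pool.Agent.H89.FM.Targets2

/-!
`MP_52e316_nt`, fourth moment over the class groups: row LCN (the number of the vectors of a lattice).
-/

set_option autoImplicit false

open MeasureTheory Set Filter
open scoped Real Matrix MatrixGroups

namespace Pool.Agent.H45.FM

open Pool.Agent.H31.CN Pool.Agent.H89.FM

/-- the bilinear form of the metric -/
noncomputable def bb (ρ : ℝ) (u v : ℤ × ℤ) : ℝ := (u.1 : ℝ) * v.1 / ρ + ρ * ((u.2 : ℝ) * v.2)

theorem nr_mul {ρ : ℝ} (hρ : 0 < ρ) (u v : ℤ × ℤ) :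
    nr ρ u * nr ρ v = (det u v : ℝ) ^ 2 + bb ρ u v ^ 2 := by
  unfold nr det bb
  push_cast
  field_simp
  ring

theorem nr_pos {ρ : ℝ} (hρ : 0 < ρ) {v : ℤ × ℤ} (hv : v ≠ 0) : 0 < nr ρ v := by
  unfold nr
  have h1 : 0 ≤ (v.1 : ℝ) ^ 2 / ρ := by positivity
  have h2 : 0 ≤ ρ * (v.2 : ℝ) ^ 2 := by positivity
  by_cases h : v.1 = 0
  · have h' : v.2 ≠ 0 := fun h0 => hv (Prod.ext h h0)
    have : (v.2 : ℝ) ≠ 0 := by exact_mod_cast h'
    have : 0 < ρ * (v.2 : ℝ) ^ 2 := by positivity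
    linarith
  · have : (v.1 : ℝ) ≠ 0 := by exact_mod_cast h
    have : 0 < (v.1 : ℝ) ^ 2 / ρ := by positivity
    linarith

/-- a vector of the lattice parallel to the shortest one is a multiple of it -/
theorem par {ρ : ℝ} (hρ : 0 < ρ) {L : Pool.Agent.H89.FM.Lat} {v0 u : ℤ × ℤ} (h0 : v0 ∈ L) (h0' : v0 ≠ 0)
    (hmin : ∀ w ∈ L, w ≠ 0 → nr ρ v0 ≤ nr ρ w) (hu : u ∈ L) (hd : det v0 u = 0) :
    ∃ c : ℤ, u = c • v0 ∧ bb ρ v0 u = c * nr ρ v0 := by
  have hμ := nr_pos hρ h0'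
  set t : ℝ := bb ρ v0 u / nr ρ v0 with ht
  have hbt : bb ρ v0 u = t * nr ρ v0 := by rw [ht]; field_simp
  have hnu : nr ρ u = t ^ 2 * nr ρ v0 := by
    have := nr_mul hρ v0 u
    rw [hd, hbt] at this
    have h2 : nr ρ v0 * nr ρ u = nr ρ v0 * (t ^ 2 * nr ρ v0) := by
      rw [this]; push_cast; ring
    exact mul_left_cancel₀ hμ.ne' h2
  refine ⟨round t, ?_, ?_⟩
  · by_contra hne
    have hw : u - round t • v0 ∈ L := L.sub_mem hu (L.zsmul_mem h0 _)
    have hw0 : u - round t • v0 ≠ 0 := sub_ne_zero.2 hne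
    have h1 := hmin _ hw hw0
    have h2 : nr ρ (u - round t • v0) = (t - round t) ^ 2 * nr ρ v0 := by
      have e : nr ρ (u - round t • v0) =
          nr ρ u - 2 * round t * bb ρ v0 u + (round t : ℝ) ^ 2 * nr ρ v0 := by
        unfold nr bb
        simp only [Prod.fst_sub, Prod.snd_sub, Prod.smul_fst, Prod.smul_snd, smul_eq_mul]
        push_cast
        field_simp
        ring
      rw [e, hnu, hbt]
      ring
    have h3 := abs_sub_round t
    have h4 : (t - round t) ^ 2 ≤ 1 / 4 := by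
      have := sq_abs (t - round t)
      nlinarith [abs_nonneg (t - round t)]
    rw [h2] at h1
    nlinarith
  · by_contra hne
    have h3 := abs_sub_round t
    by_cases hne' : u = round t • v0
    · apply hne
      have e : bb ρ v0 (round t • v0) = round t * nr ρ v0 := by
        unfold nr bb
        simp only [Prod.smul_fst, Prod.smul_snd, smul_eq_mul]
        push_cast
        field_simp
      rw [← e, ← hne']
    · have hw : u - round t • v0 ∈ L := L.sub_mem hu (L.zsmul_mem h0 _)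
      have hw0 : u - round t • v0 ≠ 0 := sub_ne_zero.2 hne'
      have h1 := hmin _ hw hw0
      have h2 : nr ρ (u - round t • v0) = (t - round t) ^ 2 * nr ρ v0 := by
        have e : nr ρ (u - round t • v0) =
            nr ρ u - 2 * round t * bb ρ v0 u + (round t : ℝ) ^ 2 * nr ρ v0 := by
          unfold nr bb
          simp only [Prod.fst_sub, Prod.snd_sub, Prod.smul_fst, Prod.smul_snd, smul_eq_mul]
          push_cast
          field_simp
          ring
        rw [e, hnu, hbt]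
        ring
      have h4 : (t - round t) ^ 2 ≤ 1 / 4 := by
        have := sq_abs (t - round t)
        nlinarith [abs_nonneg (t - round t)]
      rw [h2] at h1
      nlinarith

theorem pf_LCN (_hFLS : T_FLS) (hMIN : T_MIN) (hBSL : T_BSL) : T_LCN := by
  refine ⟨8, by norm_num, ?_⟩
  intro ρ R n L F hρ hn hL hR hF
  obtain ⟨v0, hv0, hv0', hm, hmin, -⟩ := hMIN ρ n L hρ hn hL
  obtain ⟨e₁, e₂, hdet, hbas⟩ := hBSL n L hn hL
  have hμ : 0 < nr ρ v0 := nr_pos hρ hv0'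
  rw [← hm] at hR hmin ⊢
  set μ := nr ρ v0 with hμdef
  have hR0 : 0 < R := lt_of_lt_of_le hμ hR
  have hn0 : (0 : ℝ) < n := by exact_mod_cast hn
  have hdvd : ∀ v ∈ L, (n : ℤ) ∣ det v0 v := by
    intro v hv
    obtain ⟨a, b, hab⟩ := (hbas v0).1 hv0
    obtain ⟨a', b', hab'⟩ := (hbas v).1 hv
    refine ⟨a * b' - a' * b, ?_⟩
    rw [← hdet, hab, hab']
    unfold det
    simp only [Prod.fst_add, Prod.snd_add, Prod.smul_fst, Prod.smul_snd, smul_eq_mul]
    ring
  set K : ℝ := Real.sqrt (μ * R) / n with hK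
  set S : ℝ := Real.sqrt (R / μ) with hS
  have hK0 : 0 ≤ K := by positivity
  have hS1 : 1 ≤ S := by
    rw [hS]
    apply Real.one_le_sqrt.2
    rwa [one_le_div hμ]
  have hKS : K * S = R / n := by
    rw [hK, hS, div_mul_eq_mul_div, ← Real.sqrt_mul (by positivity)]
    congr 1
    have : μ * R * (R / μ) = R ^ 2 := by field_simp
    rw [this, Real.sqrt_sq hR0.le]
  -- bounds of the two coordinates
  have hb1 : ∀ v ∈ F, |(det v0 v : ℝ)| ≤ Real.sqrt (μ * R) := by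
    intro v hv
    apply Real.abs_le_sqrt
    have := nr_mul hρ v0 v
    have h1 := (hF v hv).2.2
    nlinarith [sq_nonneg (bb ρ v0 v)]
  have hb2 : ∀ v ∈ F, |bb ρ v0 v / μ| ≤ S := by
    intro v hv
    rw [hS]
    apply Real.abs_le_sqrt
    have := nr_mul hρ v0 v
    have h1 := (hF v hv).2.2
    have h2 : bb ρ v0 v ^ 2 ≤ μ * R := by nlinarith [sq_nonneg (det v0 v : ℝ)]
    rw [div_pow, div_le_div_iff₀ (by positivity) hμ]
    nlinarith
  have hinj : Set.InjOn (fun v => (det v0 v / (n : ℤ), ⌊bb ρ v0 v / μ⌋)) (F : Set (ℤ × ℤ)) := by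
    intro v hv w hw hvw
    simp only [Prod.mk.injEq] at hvw
    obtain ⟨h1, h2⟩ := hvw
    have hvL := (hF v hv).1
    have hwL := (hF w hw).1
    have h3 : det v0 v = det v0 w := by
      rw [← Int.ediv_mul_cancel (hdvd v hvL), ← Int.ediv_mul_cancel (hdvd w hwL), h1]
    have h4 : det v0 (v - w) = 0 := by
      have : det v0 (v - w) = det v0 v - det v0 w := by
        unfold det
        simp only [Prod.fst_sub, Prod.snd_sub]
        ring
      rw [this, h3, sub_self]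
    obtain ⟨c, hc, hc'⟩ := par hρ hv0 hv0' hmin (L.sub_mem hvL hwL) h4
    have h5 : bb ρ v0 (v - w) = bb ρ v0 v - bb ρ v0 w := by
      unfold bb
      simp only [Prod.fst_sub, Prod.snd_sub]
      push_cast
      ring
    have h6 : bb ρ v0 v / μ - bb ρ v0 w / μ = c := by
      rw [← sub_div, ← h5, hc', ← hμdef, mul_div_assoc, div_self hμ.ne', mul_one]
    have h7 : |bb ρ v0 v / μ - bb ρ v0 w / μ| < 1 := Int.abs_sub_lt_one_of_floor_eq_floor h2
    rw [h6] at h7
    have h8 : |c| < 1 := by exact_mod_cast h7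
    have h9 : c = 0 := Int.abs_lt_one_iff.1 h8
    rw [h9, zero_smul] at hc
    exact sub_eq_zero.1 hc
  have hmaps : ∀ v ∈ F, (det v0 v / (n : ℤ), ⌊bb ρ v0 v / μ⌋) ∈
      Finset.Icc (-⌊K⌋) ⌊K⌋ ×ˢ Finset.Icc (-⌊S⌋ - 1) ⌊S⌋ := by
    intro v hv
    have h1 := hb1 v hv
    have h2 := hb2 v hv
    have h3 : ((det v0 v / (n : ℤ) : ℤ) : ℝ) = (det v0 v : ℝ) / n := by
      have h4 := Int.ediv_mul_cancel (hdvd v (hF v hv).1)
      rw [eq_div_iff hn0.ne']
      exact_mod_cast h4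
    have h5 : |((det v0 v / (n : ℤ) : ℤ) : ℝ)| ≤ K := by
      rw [h3, abs_div, abs_of_pos hn0, hK]
      gcongr
    rw [abs_le] at h5 h2
    simp only [Finset.mem_product, Finset.mem_Icc]
    refine ⟨⟨?_, ?_⟩, ?_, ?_⟩
    · have : -(det v0 v / (n : ℤ)) ≤ ⌊K⌋ := by
        rw [Int.le_floor]; push_cast; linarith [h5.1]
      linarith
    · rw [Int.le_floor]; exact h5.2
    · have h6 : (-⌊S⌋ - 1 : ℤ) ≤ ⌊bb ρ v0 v / μ⌋ := by
        rw [Int.le_floor]
        push_cast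
        have := Int.lt_floor_add_one S
        linarith [h2.1]
      exact h6
    · exact Int.floor_le_floor h2.2
  have hcard := Finset.card_le_card_of_injOn _ hmaps hinj
  rw [Finset.card_product, Int.card_Icc, Int.card_Icc] at hcard
  have hfK : 0 ≤ ⌊K⌋ := Int.floor_nonneg.2 hK0
  have hfS : 0 ≤ ⌊S⌋ := Int.floor_nonneg.2 (by linarith)
  have h1 : ((⌊K⌋ + 1 - -⌊K⌋).toNat : ℝ) ≤ 2 * K + 1 := by
    have e : ((⌊K⌋ + 1 - -⌊K⌋).toNat : ℝ) = ((⌊K⌋ + 1 - -⌊K⌋ : ℤ) : ℝ) := by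
      exact_mod_cast Int.toNat_of_nonneg (by linarith)
    rw [e]; push_cast
    linarith [Int.floor_le K]
  have h2 : ((⌊S⌋ + 1 - (-⌊S⌋ - 1)).toNat : ℝ) ≤ 4 * S := by
    have e : ((⌊S⌋ + 1 - (-⌊S⌋ - 1)).toNat : ℝ) = ((⌊S⌋ + 1 - (-⌊S⌋ - 1) : ℤ) : ℝ) := by
      exact_mod_cast Int.toNat_of_nonneg (by linarith)
    rw [e]; push_cast
    linarith [Int.floor_le S]
  have h3 : (F.card : ℝ) ≤ (2 * K + 1) * (4 * S) := by
    calc (F.card : ℝ) ≤ ((⌊K⌋ + 1 - -⌊K⌋).toNat : ℝ) * ((⌊S⌋ + 1 - (-⌊S⌋ - 1)).toNat : ℝ) := by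
          exact_mod_cast hcard
      _ ≤ _ := by
          apply mul_le_mul h1 h2 (by positivity) (by positivity)
  calc (F.card : ℝ) ≤ (2 * K + 1) * (4 * S) := h3
    _ = 8 * (K * S) + 4 * S := by ring
    _ ≤ 8 * (S + R / n) := by rw [hKS]; linarith

end Pool.Agent.H45.FM
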